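import Pool.Agent.H56.UD.Defs
import Pool.Agent.H66.GEO.Defs

/-!
# THEOREM DIM (MP_8f2e1c_an), any number of Julia critical points (think 1731, 1841, 1842, 1848, 1880): common definitions

`Mn`: `M` is a minimal piece of `P` (`P \ M` is closed). `Tz`: the orbit of `z` tends to `M` (so `ω(z) = M`) and avoids `Cr`.
`Rg`: uniformly perfect at small scales. `Clu`: clusters at arbitrarily small scales (the negation of asymptotic connectedness,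
planar form of `H21/AS`). `PLANAR THEOREM`: `PS`, `FX`, `Mn`, `Rg`, `Clu`, `z ∈ E` with `Tz` is contradictory.
-/

set_option autoImplicit false

open Filter Topology Metric Set MeasureTheory

namespace Pool.Agent.H66.DIM

open Pool.Agent.H56.UD

/-- `M` is a minimal piece of `P` -/
structure Mn (f : ℂ → ℂ) (P M : Set ℂ) : Prop where
  cl : IsClosed M
  ne : M.Nonempty
  sub : M ⊆ P
  inv : ∀ x ∈ M, f x ∈ M
  min : ∀ x ∈ M, M ⊆ closure {y | ∃ n : ℕ, f^[n] x = y}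
  off : IsClosed (P \ M)

/-- the orbit of `z` tends to `M` and avoids the critical points -/
structure Tz (f : ℂ → ℂ) (Cr M : Set ℂ) (z : ℂ) : Prop where
  npc : ∀ n : ℕ, f^[n] z ∉ Cr
  lim : ∀ ε : ℝ, 0 < ε → ∃ N : ℕ, ∀ n ≥ N, ∃ y ∈ M, ‖f^[n] z - y‖ < ε

/-- uniformly perfect at small scales -/
def Rg (M : Set ℂ) : Prop :=
  ∃ A r₁ : ℝ, 0 < r₁ ∧ ∀ x ∈ M, ∀ r : ℝ, 0 < r → r < r₁ → ∃ y ∈ M, r ≤ ‖y - x‖ ∧ ‖y - x‖ ≤ A * r

/-- clusters at arbitrarily small scales -/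
def Clu (M : Set ℂ) : Prop :=
  ∃ ε : ℝ, 0 < ε ∧ ∀ r₁ : ℝ, 0 < r₁ → ∃ r : ℝ, 0 < r ∧ r < r₁ ∧ ∃ A ⊆ M, A.Nonempty ∧
    (∀ x ∈ A, ∀ y ∈ A, ‖x - y‖ ≤ r) ∧ ∀ x ∈ A, ∀ y ∈ M, y ∉ A → ε * r ≤ ‖x - y‖

end Pool.Agent.H66.DIM
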